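import Mathlib

namespace Pool.Agent.Results.MP_cf0a62_gt.Crank

open Set Real Filter Topology Metric MeasureTheory

/-- `ℝ^(n+1)`, containing the unit sphere `S^n` -/
abbrev E (n : ℕ) := EuclideanSpace ℝ (Fin (n + 1))

/-- positive cone on a family of vectors -/
def cone {ι W : Type*} [Fintype ι] [AddCommGroup W] [Module ℝ W] (v : ι → W) : Set W :=
  {x | ∃ c : ι → ℝ, (∀ i, 0 ≤ c i) ∧ x = ∑ i, c i • v i}

/-- `K` is the boundary of the `n`-dimensional cross-polytope: vertices `(i, b)`, and one facet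
`{(i, ε i)}` for each `ε`.  These are the vertex vectors of that facet. -/
def facet {n : ℕ} {W : Type*} (P : Fin n × Bool → W) (ε : Fin n → Bool) : Fin n → W :=
  fun i => P (i, ε i)

/-- the sign of the ordered facet `ε` in the fundamental cycle of `K` -/
def sgn {n : ℕ} (ε : Fin n → Bool) : ℝ := ∏ i, if ε i then 1 else -1

/-- polyhedra of type `K` in `S^n` -/
def IsPoly {n : ℕ} (P : Fin n × Bool → E n) : Prop :=
  (∀ v, ‖P v‖ = 1) ∧ ∀ ε, LinearIndependent ℝ (facet P ε)

/-- equal edge lengths (the edges of `K` join vertices from different opposite pairs) -/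
def SameLen {n : ℕ} (P Q : Fin n × Bool → E n) : Prop :=
  ∀ u v, u.1 ≠ v.1 → InnerProductGeometry.angle (P u) (P v) = InnerProductGeometry.angle (Q u) (Q v)

/-- no equator of `K` (all vertices off one opposite pair) lies in a great `(n-2)`-sphere -/
def NoHinge {n : ℕ} (P : Fin n × Bool → E n) : Prop :=
  ∀ (i : Fin n) (W : Submodule ℝ (E n)), (∀ v, v.1 ≠ i → P v ∈ W) → n ≤ Module.finrank ℝ W

/-- determinant of the rows `x, v 0, …, v (n-1)` -/
noncomputable def det {n : ℕ} (x : E n) (v : Fin n → E n) : ℝ :=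
  (Matrix.of fun i k => (Fin.cons x v : Fin (n + 1) → E n) i k).det

open Classical in
/-- algebraic intersection number of the geodesic arc from `y` to `x` with `P(K)` -/
noncomputable def ind {n : ℕ} (P : Fin n × Bool → E n) (y x : E n) : ℝ :=
  ∑ ε, if ∃ s t : ℝ, 0 < s ∧ 0 < t ∧ s • y + t • x ∈ cone (facet P ε)
    then sgn ε * Real.sign (det x (facet P ε)) else 0

/-- the standard volume on `S^n` -/
noncomputable def sph (n : ℕ) : Measure (sphere (0 : E n) 1) := (volume : Measure (E n)).toSphere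

/-- `V_y(P)` -/
noncomputable def vol {n : ℕ} (P : Fin n × Bool → E n) (y : E n) : ℝ := ∫ x, ind P y x.1 ∂(sph n)

abbrev R3 := Fin 3 → ℝ

def d3 (x u v : R3) : ℝ :=
  x 0 * (u 1 * v 2 - u 2 * v 1) + x 1 * (u 2 * v 0 - u 0 * v 2) + x 2 * (u 0 * v 1 - u 1 * v 0)

variable {m : ℕ}

def i1 : Fin (m + 2 + 1) := Fin.succ 0
def i2 : Fin (m + 2 + 1) := Fin.succ (Fin.succ 0)
def j3 (j : Fin m) : Fin (m + 2 + 1) := j.succ.succ.succ

def pr (x : E (m + 2)) : R3 := ![x 0, x i1, x i2]

def mk (u : R3) (s : Fin m → ℝ) : E (m + 2) :=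
  WithLp.toLp 2 (Fin.cons (u 0) (Fin.cons (u 1) (Fin.cons (u 2) s)) : Fin (m + 2 + 1) → ℝ)

lemma mk0 (u : R3) (s : Fin m → ℝ) : mk u s 0 = u 0 := rfl
lemma mk1 (u : R3) (s : Fin m → ℝ) : mk u s i1 = u 1 := rfl
lemma mk2 (u : R3) (s : Fin m → ℝ) : mk u s i2 = u 2 := rfl
lemma mk3 (u : R3) (s : Fin m → ℝ) (j : Fin m) : mk u s (j3 j) = s j := rfl

lemma pr_mk (u : R3) (s : Fin m → ℝ) : pr (mk u s) = u := by
  ext k; fin_cases k <;> rfl

lemma ext3 {x y : E (m + 2)} (h : pr x = pr y) (h3 : ∀ j, x (j3 j) = y (j3 j)) : x = y := by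
  ext k
  refine Fin.cases (congrFun h 0) (fun k => Fin.cases (congrFun h 1) (fun k => ?_) k) k
  exact Fin.cases (congrFun h 2) h3 k

lemma inner_mk (u v : R3) (s s' : Fin m → ℝ) : inner ℝ (mk u s) (mk v s') =
    u 0 * v 0 + u 1 * v 1 + u 2 * v 2 + ∑ j, s j * s' j := by
  simp only [mk, PiLp.inner_apply, Fin.sum_univ_succ, Fin.cons_zero, Fin.cons_succ,
    RCLike.inner_apply, conj_trivial, mul_comm, add_assoc]

def fam (u v : R3) (s : Fin m → ℝ) : Fin (m + 2) → E (m + 2) :=
  Fin.cons (mk u 0) (Fin.cons (mk v 0) fun j => mk 0 (Pi.single j (s j)))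

lemma det_fam (x : E (m + 2)) (u v : R3) (s : Fin m → ℝ) :
    det x (fam u v s) = d3 (pr x) u v * ∏ j, s j := by
  let e : Fin 3 ⊕ Fin m ≃ Fin (m + 2 + 1) := finSumFinEquiv.trans (finCongr (by omega))
  have e0 : e (.inl 0) = 0 := Fin.ext (by simp [e])
  have e1 : e (.inl 1) = i1 := Fin.ext (by simp [e, i1])
  have e2 : e (.inl 2) = i2 := rfl
  have e3 : ∀ j, e (.inr j) = j3 j := fun j => Fin.ext (by simp [e, j3])
  rw [det, ← Matrix.det_submatrix_equiv_self e]
  have : (Matrix.of fun i k => (Fin.cons x (fam u v s) : Fin (m + 2 + 1) → E (m + 2)) i k).submatrix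
      e e = Matrix.fromBlocks (Matrix.of ![pr x, u, v]) (Matrix.of ![fun j => x (j3 j), 0, 0]) 0
        (Matrix.diagonal s) := by
    ext (i | i) (k | k)
    · fin_cases i <;> fin_cases k <;>
        simp only [Matrix.submatrix_apply, Fin.zero_eta, Fin.mk_one, Fin.reduceFinMk, e0, e1, e2] <;> rfl
    · fin_cases i <;>
        simp only [Matrix.submatrix_apply, Fin.zero_eta, Fin.mk_one, Fin.reduceFinMk, e0, e1, e2, e3] <;>
        rfl
    · fin_cases k <;>
        simp only [Matrix.submatrix_apply, Fin.zero_eta, Fin.mk_one, Fin.reduceFinMk, e0, e1, e2, e3] <;>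
        rfl
    · simp only [Matrix.submatrix_apply, e3, Matrix.fromBlocks_apply₂₂, Matrix.diagonal_apply]
      change (Pi.single i (s i) : Fin m → ℝ) k = _
      rw [Pi.single_apply]
      simp only [eq_comm]
  rw [this, Matrix.det_fromBlocks_zero₂₁, Matrix.det_diagonal, Matrix.det_fin_three]
  simp only [d3, Matrix.of_apply, Matrix.cons_val]
  ring

lemma li_fam {w u v : R3} {s : Fin m → ℝ} (h : d3 w u v ≠ 0) (hs : ∀ j, s j ≠ 0) :
    LinearIndependent ℝ (Fin.cons (mk w 0) (fam u v s) : Fin (m + 2 + 1) → E (m + 2)) := by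
  have : det (mk w (0 : Fin m → ℝ)) (fam u v s) ≠ 0 := by
    rw [det_fam, pr_mk]; exact mul_ne_zero h (Finset.prod_ne_zero_iff.2 fun j _ => hs j)
  exact LinearIndependent.of_comp (WithLp.linearEquiv 2 ℝ _).toLinearMap
    (Matrix.linearIndependent_rows_of_det_ne_zero this)

lemma sum_fam (u v : R3) (s : Fin m → ℝ) (c : Fin (m + 2) → ℝ) :
    ∑ i, c i • fam u v s i = mk (c 0 • u + c 1 • v) fun j => c j.succ.succ * s j := by
  have h : ∀ k, (∑ i, c i • fam u v s i) k = c 0 * mk u (0 : Fin m → ℝ) k +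
      (c 1 * mk v (0 : Fin m → ℝ) k + ∑ j, c j.succ.succ * mk 0 (Pi.single j (s j)) k) := fun k => by
    simp [Fin.sum_univ_succ, fam]
  refine ext3 (funext fun k => ?_) fun j => ?_
  · fin_cases k <;> simp [pr, h, mk0, mk1, mk2]
  · simp [h, mk3, Pi.single_apply]

def c2 (u v : R3) : Set R3 := {w | ∃ a b : ℝ, 0 ≤ a ∧ 0 ≤ b ∧ w = a • u + b • v}

lemma mem_cone {u v : R3} {s : Fin m → ℝ} (hs : ∀ j, s j * s j = 1) (w : E (m + 2)) :
    w ∈ cone (fam u v s) ↔ pr w ∈ c2 u v ∧ ∀ j, 0 ≤ s j * w (j3 j) := by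
  constructor
  · rintro ⟨c, hc, rfl⟩
    rw [sum_fam, pr_mk]
    refine ⟨⟨_, _, hc 0, hc 1, rfl⟩, fun j => ?_⟩
    rw [mk3, mul_left_comm, hs, mul_one]
    exact hc _
  · rintro ⟨⟨a, b, ha, hb, h⟩, h3⟩
    refine ⟨Fin.cons a (Fin.cons b fun j => s j * w (j3 j)), fun i => ?_, ?_⟩
    · exact Fin.cases ha (fun i => Fin.cases hb h3 i) i
    · rw [sum_fam]
      refine ext3 (by rw [pr_mk]; exact h) fun j => ?_
      rw [mk3, Fin.cons_succ, Fin.cons_succ, mul_right_comm, hs, one_mul]

open Classical in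
noncomputable def F (y u v x : R3) : ℝ :=
  if d3 y u v * d3 x u v < 0 ∧ d3 x v y * d3 x u v ≤ 0 ∧ d3 x y u * d3 x u v ≤ 0
  then Real.sign (d3 x u v) else 0

lemma key (y u v x : R3) : d3 y u v • x = d3 x u v • y + d3 x v y • u + d3 x y u • v := by
  ext k; fin_cases k <;> simp [d3] <;> ring

open Classical in
lemma F_eq (y u v x : R3) : (if ∃ s t : ℝ, 0 < s ∧ 0 < t ∧ s • y + t • x ∈ c2 u v
    then Real.sign (d3 x u v) else 0) = F y u v x := by
  by_cases h0 : d3 x u v = 0
  · simp [F, h0]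
  refine if_congr ⟨?_, fun h => ?_⟩ rfl rfl
  · rintro ⟨s, t, hs, ht, a, b, ha, hb, h⟩
    have k0 := congrFun h 0
    have k1 := congrFun h 1
    have k2 := congrFun h 2
    simp only [Pi.add_apply, Pi.smul_apply, smul_eq_mul] at k0 k1 k2
    have e1 : s * d3 y u v = -(t * d3 x u v) := by
      simp only [d3]
      linear_combination (u 1 * v 2 - u 2 * v 1) * k0 + (u 2 * v 0 - u 0 * v 2) * k1 +
        (u 0 * v 1 - u 1 * v 0) * k2
    have e2 : s * d3 x v y = -(a * d3 x u v) := by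
      simp only [d3]
      linear_combination (x 1 * v 2 - x 2 * v 1) * k0 + (x 2 * v 0 - x 0 * v 2) * k1 +
        (x 0 * v 1 - x 1 * v 0) * k2
    have e3 : s * d3 x y u = -(b * d3 x u v) := by
      simp only [d3]
      linear_combination (u 1 * x 2 - u 2 * x 1) * k0 + (u 2 * x 0 - u 0 * x 2) * k1 +
        (u 0 * x 1 - u 1 * x 0) * k2
    have hp := mul_self_pos.2 h0
    refine ⟨neg_of_mul_neg_right (a := s) ?_ hs.le, nonpos_of_mul_nonpos_right (a := s) ?_ hs,
      nonpos_of_mul_nonpos_right (a := s) ?_ hs⟩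
    · rw [← mul_assoc, e1]; nlinarith [mul_pos ht hp]
    · rw [← mul_assoc, e2]; nlinarith [mul_nonneg ha hp.le]
    · rw [← mul_assoc, e3]; nlinarith [mul_nonneg hb hp.le]
  · refine ⟨_, _, mul_self_pos.2 h0, neg_pos.2 h.1, _, _, neg_nonneg.2 h.2.1, neg_nonneg.2 h.2.2, ?_⟩
    linear_combination (norm := module) (-d3 x u v) • key y u v x

def pm (b : Bool) : ℝ := if b then 1 else -1

lemma pm_t : pm true = 1 := rfl
lemma pm_f : pm false = -1 := rfl

lemma pm_sq (b : Bool) : pm b * pm b = 1 := by cases b <;> simp [pm]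

def poly (U V : Bool → R3) (p : Fin (m + 2) × Bool) : E (m + 2) :=
  fam (U p.2) (V p.2) (fun _ => pm p.2) p.1

lemma facet_poly (U V : Bool → R3) (ε : Fin (m + 2) → Bool) :
    facet (poly U V) ε = fam (U (ε 0)) (V (ε 1)) fun j => pm (ε j.succ.succ) := by
  funext i
  exact Fin.cases rfl (fun i => Fin.cases rfl (fun _ => rfl) i) i

lemma ind_poly (U V : Bool → R3) (y : R3) {x : E (m + 2)} (hx : ∀ j, x (j3 j) ≠ 0) :
    ind (poly U V) (mk y 0) x = ∑ a, ∑ b, pm a * pm b * F y (U a) (V b) (pr x) := by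
  classical
  rw [ind, ← (Fin.consEquiv fun _ => Bool).sum_comp, Fintype.sum_prod_type]
  refine Finset.sum_congr rfl fun a _ => ?_
  rw [← (Fin.consEquiv fun _ => Bool).sum_comp, Fintype.sum_prod_type]
  refine Finset.sum_congr rfl fun b _ => ?_
  have hp : ∀ s t : ℝ, pr (s • mk y (0 : Fin m → ℝ) + t • x) = s • y + t • pr x := fun s t => by
    ext k; fin_cases k <;> rfl
  have h3 : ∀ (s t : ℝ) j, (s • mk y (0 : Fin m → ℝ) + t • x) (j3 j) = t * x (j3 j) := fun s t j => by
    simp [mk3]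
  rw [Finset.sum_eq_single (fun j => decide (0 < x (j3 j)))]
  · rw [← F_eq, mul_ite, mul_zero, facet_poly]
    refine if_congr (exists₂_congr fun s t => and_congr_right fun _ => and_congr_right fun ht => ?_)
      ?_ rfl
    · rw [mem_cone fun _ => pm_sq _, hp]
      refine and_iff_left fun j => ?_
      rw [h3]
      change 0 ≤ pm (decide (0 < x (j3 j))) * _
      by_cases h : 0 < x (j3 j)
      · simp only [h, decide_true, pm_t]; positivity
      · simp only [h, decide_false, pm_f]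
        nlinarith [mul_nonneg ht.le (neg_nonneg.2 (not_lt.1 h))]
    · rw [det_fam, sgn, Fin.prod_univ_succ, Fin.prod_univ_succ]
      change pm a * (pm b * ∏ j, pm (decide (0 < x (j3 j)))) *
        Real.sign (d3 (pr x) (U a) (V b) * ∏ j, pm (decide (0 < x (j3 j)))) = _
      have : (∏ j, pm (decide (0 < x (j3 j)))) * ∏ j, pm (decide (0 < x (j3 j))) = 1 := by
        rw [← Finset.prod_mul_distrib]; simp [pm_sq]
      rcases mul_self_eq_one_iff.1 this with h | h <;> simp [h, Real.sign_neg]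
  · intro ε _ hε
    refine if_neg ?_
    rintro ⟨s, t, -, ht, h⟩
    rw [facet_poly, mem_cone fun _ => pm_sq _] at h
    refine hε (funext fun j => ?_)
    have := h.2 j
    rw [h3] at this
    change 0 ≤ pm (ε j) * _ at this
    rcases (hx j).lt_or_gt with h | h <;> cases e : ε j <;> simp only [e, pm_t, pm_f] at this
    · simp [h.le]
    · nlinarith [mul_pos ht (neg_pos.2 h)]
    · nlinarith [mul_pos ht h]
    · simp [h]
  · simp

instance (n : ℕ) : IsFiniteMeasure (sph n) := by unfold sph; infer_instance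

lemma ae_ne {n : ℕ} {f : E n → ℝ} (hf : IsLinearMap ℝ f) {w : E n} (hw : f w ≠ 0) :
    ∀ᵐ x ∂(sph n), f x.1 ≠ 0 := by
  have hc : Continuous f := (hf.mk' f).continuous_of_finiteDimensional
  rw [ae_iff, sph, Measure.toSphere_apply' _
    (by simpa using (isClosed_eq (hc.comp continuous_subtype_val) continuous_const).measurableSet)]
  refine mul_eq_zero_of_right _ (measure_mono_null ?_ (Measure.addHaar_submodule _
    (LinearMap.ker (hf.mk' f)) fun h => hw (h ▸ Submodule.mem_top : w ∈ LinearMap.ker (hf.mk' f))))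
  rintro _ ⟨r, -, _, ⟨x, hx, rfl⟩, rfl⟩
  exact Submodule.smul_mem _ _ (not_not.1 hx)

lemma ae_d {w u v : R3} (h : d3 w u v ≠ 0) : ∀ᵐ x ∂(sph (m + 2)), d3 (pr x.1) u v ≠ 0 :=
  ae_ne (f := fun x => d3 (pr x) u v) ⟨fun x y => by simp [d3, pr]; ring,
    fun c x => by simp [d3, pr]; ring⟩ (w := mk w 0) (by rwa [pr_mk])

lemma ae_j : ∀ᵐ x ∂(sph (m + 2)), ∀ j, x.1 (j3 j) ≠ 0 :=
  ae_all_iff.2 fun j => ae_ne (f := fun x => x (j3 j)) ⟨fun _ _ => rfl, fun _ _ => rfl⟩
    (w := mk 0 1) (by simp [mk3])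

lemma F_le (y u v x : R3) : ‖F y u v x‖ ≤ 1 := by
  unfold F
  split_ifs
  · rcases Real.sign_apply_eq (d3 x u v) with h | h | h <;> simp [h]
  · simp

lemma F_meas (y u v : R3) :
    AEStronglyMeasurable (fun x : sphere (0 : E (m + 2)) 1 => F y u v (pr x.1)) (sph (m + 2)) := by
  have h : ∀ u v, Measurable fun x : sphere (0 : E (m + 2)) 1 => d3 (pr x.1) u v := fun u v => by
    apply Continuous.measurable
    simp only [d3, pr, Matrix.cons_val]
    fun_prop
  refine Measurable.aestronglyMeasurable (Measurable.ite ?_ ?_ measurable_const)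
  · exact (measurableSet_lt (measurable_const.mul (h _ _)) measurable_const).inter
      ((measurableSet_le ((h _ _).mul (h _ _)) measurable_const).inter
        (measurableSet_le ((h _ _).mul (h _ _)) measurable_const))
  · exact Measurable.ite (measurableSet_lt (h _ _) measurable_const) measurable_const
      (Measurable.ite (measurableSet_lt measurable_const (h _ _)) measurable_const measurable_const)

lemma F_int (y u v : R3) :
    Integrable (fun x : sphere (0 : E (m + 2)) 1 => F y u v (pr x.1)) (sph (m + 2)) :=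
  (integrable_const 1).mono' (F_meas y u v) (Eventually.of_forall fun _ => F_le _ _ _ _)

lemma F_cont {y u v : ℝ → R3} (hy : Continuous y) (hu : Continuous u) (hv : Continuous v) {t : ℝ}
    {w : R3} (h0 : d3 w (u t) (v t) ≠ 0) (h1 : y t ∉ c2 (u t) (v t)) :
    ContinuousAt (fun t => ∫ x, F (y t) (u t) (v t) (pr x.1) ∂(sph (m + 2))) t := by
  refine continuousAt_of_dominated (Eventually.of_forall fun _ => F_meas _ _ _)
    (Eventually.of_forall fun _ => Eventually.of_forall fun _ => F_le _ _ _ _) (integrable_const 1) ?_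
  have cd : ∀ {a b c : ℝ → R3}, Continuous a → Continuous b → Continuous c →
      Continuous fun t => d3 (a t) (b t) (c t) := fun _ _ _ => by unfold d3; fun_prop
  have main : ∀ x : R3, d3 x (u t) (v t) ≠ 0 → (d3 (y t) (u t) (v t) ≠ 0 →
      d3 x (v t) (y t) ≠ 0 ∧ d3 x (y t) (u t) ≠ 0) →
      ContinuousAt (fun t => F (y t) (u t) (v t) x) t := by
    intro x hx h2
    have cx : Continuous fun _ : ℝ => x := continuous_const
    have c0 := (cd cx hu hv).continuousAt (x := t)
    have c1 := ((cd hy hu hv).mul (cd cx hu hv)).continuousAt (x := t)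
    have c2 := ((cd cx hv hy).mul (cd cx hu hv)).continuousAt (x := t)
    have c3 := ((cd cx hy hu).mul (cd cx hu hv)).continuousAt (x := t)
    by_cases p2 : 0 < d3 x (v t) (y t) * d3 x (u t) (v t)
    · refine (continuousAt_const (y := (0 : ℝ))).congr ?_
      filter_upwards [c2.eventually (lt_mem_nhds p2)] with r hr
      exact (if_neg fun h => h.2.1.not_gt hr).symm
    by_cases p3 : 0 < d3 x (y t) (u t) * d3 x (u t) (v t)
    · refine (continuousAt_const (y := (0 : ℝ))).congr ?_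
      filter_upwards [c3.eventually (lt_mem_nhds p3)] with r hr
      exact (if_neg fun h => h.2.2.not_gt hr).symm
    by_cases p1 : 0 < d3 (y t) (u t) (v t) * d3 x (u t) (v t)
    · refine (continuousAt_const (y := (0 : ℝ))).congr ?_
      filter_upwards [c1.eventually (lt_mem_nhds p1)] with r hr
      exact (if_neg fun h => h.1.not_gt hr).symm
    have ha : d3 (y t) (u t) (v t) ≠ 0 := fun ha => by
      have hp := mul_self_pos.2 hx
      refine h1 ⟨_, _, div_nonneg (neg_nonneg.2 (not_lt.1 p2)) hp.le,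
        div_nonneg (neg_nonneg.2 (not_lt.1 p3)) hp.le, ?_⟩
      have := key (y t) (u t) (v t) x
      rw [ha, zero_smul] at this
      ext k
      have := congrFun this k
      simp only [Pi.add_apply, Pi.smul_apply, smul_eq_mul, Pi.zero_apply] at this ⊢
      field_simp
      linarith
    have q1 := c1.eventually (gt_mem_nhds ((not_lt.1 p1).lt_of_ne (mul_ne_zero ha hx)))
    have q2 := c2.eventually (gt_mem_nhds ((not_lt.1 p2).lt_of_ne (mul_ne_zero (h2 ha).1 hx)))
    have q3 := c3.eventually (gt_mem_nhds ((not_lt.1 p3).lt_of_ne (mul_ne_zero (h2 ha).2 hx)))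
    rcases hx.lt_or_gt with h | h
    · refine (continuousAt_const (y := (-1 : ℝ))).congr ?_
      filter_upwards [q1, q2, q3, c0.eventually (gt_mem_nhds h)] with r r1 r2 r3 r0
      exact ((if_pos ⟨r1, r2.le, r3.le⟩).trans (Real.sign_of_neg r0)).symm
    · refine (continuousAt_const (y := (1 : ℝ))).congr ?_
      filter_upwards [q1, q2, q3, c0.eventually (lt_mem_nhds h)] with r r1 r2 r3 r0
      exact ((if_pos ⟨r1, r2.le, r3.le⟩).trans (Real.sign_of_pos r0)).symm
  by_cases ha : d3 (y t) (u t) (v t) = 0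
  · filter_upwards [ae_d h0] with x hx
    exact main _ hx fun h => absurd ha h
  · filter_upwards [ae_d h0, ae_d (w := u t) (u := v t) (v := y t) (by convert ha using 1; unfold d3; ring),
      ae_d (w := v t) (u := y t) (v := u t) (by convert ha using 1; unfold d3; ring)] with x h1 h2 h3
    exact main _ h1 fun _ => ⟨h2, h3⟩

lemma F_sub {y u v x : R3} (hd : d3 x u v ≠ 0) (hb : d3 x v y ≠ 0) (hc : d3 x y u ≠ 0) :
    (0 < d3 y u v → F (-y) u v x - F y u v x = if 0 < d3 x v y ∧ 0 < d3 x y u then 1 else 0) ∧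
    (d3 y u v < 0 → F (-y) u v x - F y u v x = if d3 x v y < 0 ∧ d3 x y u < 0 then -1 else 0) := by
  have e1 : d3 (-y) u v = -d3 y u v := by simp [d3]; ring
  have e2 : d3 x v (-y) = -d3 x v y := by simp [d3]; ring
  have e3 : d3 x (-y) u = -d3 x y u := by simp [d3]; ring
  simp only [F, e1, e2, e3]
  refine ⟨fun ha => ?_, fun ha => ?_⟩ <;> rcases hd.lt_or_gt with h | h <;>
    rcases hb.lt_or_gt with h2 | h2 <;> rcases hc.lt_or_gt with h3 | h3 <;>
    simp [Real.sign_of_neg, Real.sign_of_pos, mul_neg_iff, mul_pos_iff, mul_nonpos_iff,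
      mul_nonneg_iff, ha, h, h2, h3, h.le, h2.le, h3.le, ha.not_gt, h.not_gt, h2.not_gt,
      h3.not_gt, h.not_ge, h2.not_ge, h3.not_ge]

noncomputable def p (t : ℝ) : ℝ := -sin (π * t)
noncomputable def q (t : ℝ) : ℝ := cos (π * t)
noncomputable def co (t : ℝ) : ℝ := (3 * (p t ^ 2 - q t ^ 2) - 8 * p t * q t) / 5
noncomputable def si (t : ℝ) : ℝ := (6 * p t * q t + 4 * (p t ^ 2 - q t ^ 2)) / 5
noncomputable def k (t : ℝ) : ℝ := (√(16 + 9 * si t ^ 2))⁻¹
noncomputable def Y (t : ℝ) : R3 := ![p t, q t, 0]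
noncomputable def U (t : ℝ) : Bool → R3
  | true => ![0, 0, 1]
  | false => ![4 * k t * si t, -4 * k t * co t, 3 * k t * si t]
noncomputable def V (t : ℝ) : Bool → R3
  | true => ![3 / 5, 0, -4 / 5]
  | false => ![co t, si t, 0]

lemma pq (t : ℝ) : p t ^ 2 + q t ^ 2 = 1 := by simp [p, q]

lemma cs (t : ℝ) : co t ^ 2 + si t ^ 2 = 1 := by
  simp only [co, si]; linear_combination (p t ^ 2 + q t ^ 2 + 1) * pq t

lemma k_pos (t : ℝ) : 0 < k t := by unfold k; positivity

lemma k_sq (t : ℝ) : k t ^ 2 * (16 + 9 * si t ^ 2) = 1 := by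
  rw [k, inv_pow, sq_sqrt (by positivity), inv_mul_cancel₀ (by positivity)]

lemma p_le {t : ℝ} (ht : t ∈ Icc (0 : ℝ) 1) : p t ≤ 0 :=
  neg_nonpos.2 (sin_nonneg_of_nonneg_of_le_pi (mul_nonneg pi_pos.le ht.1) (by nlinarith [pi_pos, ht.2]))

lemma c_p : Continuous p := by unfold p; fun_prop
lemma c_q : Continuous q := by unfold q; fun_prop
lemma c_co : Continuous co := by have := c_p; have := c_q; unfold co; fun_prop
lemma c_si : Continuous si := by have := c_p; have := c_q; unfold si; fun_prop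
lemma c_k : Continuous k := by
  have := c_si
  exact Continuous.inv₀ (by fun_prop) fun t => by positivity

lemma c_Y : Continuous Y := by have := c_p; have := c_q; unfold Y; fun_prop
lemma c_U (a : Bool) : Continuous fun t => U t a := by
  have := c_co; have := c_si; have := c_k
  cases a <;> simp only [U] <;> fun_prop
lemma c_V (a : Bool) : Continuous fun t => V t a := by
  have := c_co; have := c_si
  cases a <;> simp only [V] <;> fun_prop

lemma indep (t : ℝ) (a b : Bool) : ∃ w, d3 w (U t a) (V t b) ≠ 0 := by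
  have h1 := cs t
  have h2 := k_sq t
  have h3 := k_pos t
  cases a <;> cases b
  · refine ⟨![0, 0, 1], ne_of_gt ?_⟩
    simp only [d3, U, V, Matrix.cons_val]
    nlinarith
  · refine ⟨![16 * co t, 25 * si t, 12 * co t], ne_of_gt ?_⟩
    simp only [d3, U, V, Matrix.cons_val]
    nlinarith [mul_nonneg h3.le (sq_nonneg (si t))]
  · refine ⟨![-si t, co t, 0], ne_of_gt ?_⟩
    simp only [d3, U, V, Matrix.cons_val]
    nlinarith
  · refine ⟨![0, 1, 0], ne_of_gt ?_⟩
    simp only [d3, U, V, Matrix.cons_val]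
    norm_num

lemma notin {t : ℝ} (ht : t ∈ Icc (0 : ℝ) 1) (a b : Bool) : Y t ∉ c2 (U t a) (V t b) := by
  rintro ⟨x, y, hx, hy, h⟩
  have h0 := congrFun h 0
  have h1 := congrFun h 1
  have h2 := congrFun h 2
  have e := pq t
  have e' := cs t
  have hp := p_le ht
  have hk := mul_nonneg hx (k_pos t).le
  have f1 : 5 * (p t * co t + q t * si t) = 3 * p t - 4 * q t := by
    simp only [co, si]; linear_combination (3 * p t - 4 * q t) * e
  have f2 : 5 * (p t * si t - q t * co t) = 4 * p t + 3 * q t := by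
    simp only [co, si]; linear_combination (4 * p t + 3 * q t) * e
  have nb : 0 ≤ p t * co t + q t * si t → 0 ≤ p t * si t - q t * co t → False := fun g1 g2 => by
    have g3 : p t = 0 := by linarith
    have g4 : q t = 0 := by linarith
    simp [g3, g4] at e
  cases a <;> cases b <;>
    simp only [U, V, Y, Pi.add_apply, Pi.smul_apply, smul_eq_mul, Matrix.cons_val] at h0 h1 h2
  · refine nb ?_ ?_
    · have : p t * co t + q t * si t = y := by rw [h0, h1]; linear_combination y * e'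
      linarith
    · have : p t * si t - q t * co t = 4 * (x * k t) := by
        nth_rw 1 [h0, h1]; linear_combination 4 * (x * k t) * e'
      linarith
  · have g1 : p t = 0 := by linarith
    have g2 : x * k t * si t = 0 := by linarith
    have g3 : si t = -4 / 5 := by rw [si, g1]; rw [g1] at e; linarith
    have g4 : x * k t = 0 := by rw [g3] at g2; linarith
    have g5 : q t = 0 := by rw [h1]; linear_combination -4 * co t * g4
    simp [g1, g5] at e
  · refine nb ?_ ?_
    · have : p t * co t + q t * si t = y := by nth_rw 1 [h0, h1]; linear_combination y * e'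
      linarith
    · have : p t * si t - q t * co t = 0 := by nth_rw 1 [h0, h1]; ring
      linarith
  · have g1 : p t = 0 := by linarith
    have g5 : q t = 0 := by linarith
    simp [g1, g5] at e

noncomputable def W (m : ℕ) (y : R3) (t : ℝ) : ℝ :=
  ∑ a, ∑ b, pm a * pm b * ∫ x, F y (U t a) (V t b) (pr x.1) ∂(sph (m + 2))

lemma vol_eq (y : R3) (t : ℝ) : vol (poly (U t) (V t)) (mk y (0 : Fin m → ℝ)) = W m y t := by
  rw [vol, integral_congr_ae (ae_j.mono fun x hx => ind_poly (U t) (V t) y hx), W,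
    integral_finsetSum _ fun a _ => integrable_finsetSum _ fun b _ => (F_int _ _ _).const_mul _]
  refine Finset.sum_congr rfl fun a _ => ?_
  rw [integral_finsetSum _ fun b _ => (F_int _ _ _).const_mul _]
  simp only [integral_const_mul]

lemma at0 : p 0 = 0 ∧ q 0 = 1 ∧ co 0 = -3 / 5 ∧ si 0 = -4 / 5 := by
  simp only [co, si, p, q]; norm_num

lemma at1 : p 1 = 0 ∧ q 1 = -1 ∧ co 1 = -3 / 5 ∧ si 1 = -4 / 5 := by
  simp only [co, si, p, q]; norm_num

lemma U1 : U 1 = U 0 := by funext a; cases a <;> simp only [U, k, at0, at1]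
lemma V1 : V 1 = V 0 := by funext a; cases a <;> simp only [V, at0, at1]
lemma Y1 : Y 1 = -Y 0 := by ext i; fin_cases i <;> simp [Y, at0, at1]

lemma jump : W m (Y 1) 1 - W m (Y 0) 0 = (sph (m + 2)).real univ := by
  have hk := k_pos 0
  have gA : ∀ x, d3 x (Y 0) (U 0 true) = x 0 := fun x => by simp [d3, Y, U, at0]
  have gC : ∀ x, d3 x (Y 0) (U 0 false) = k 0 * (16 / 5 * x 2 - 12 / 5 * x 0) := fun x => by
    simp [d3, Y, U, at0]; ring
  have gB : ∀ x, d3 x (V 0 true) (Y 0) = 4 / 5 * x 0 + 3 / 5 * x 2 := fun x => by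
    simp [d3, Y, V, at0]; ring
  have gD : ∀ x, d3 x (V 0 false) (Y 0) = -(3 / 5 * x 2) := fun x => by
    simp [d3, Y, V, at0]; ring
  have a1 : 0 < d3 (Y 0) (U 0 true) (V 0 true) := by simp [d3, Y, U, V, at0]
  have a2 : d3 (Y 0) (U 0 true) (V 0 false) < 0 := by simp [d3, Y, U, V, at0]; norm_num
  have a3 : d3 (Y 0) (U 0 false) (V 0 true) < 0 := by simp [d3, Y, U, V, at0]; linarith
  have a4 : 0 < d3 (Y 0) (U 0 false) (V 0 false) := by simp [d3, Y, U, V, at0]; linarith
  rw [← vol_eq, ← vol_eq, vol, vol, U1, V1, Y1]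
  have hi : ∀ y : R3, Integrable (fun x : sphere (0 : E (m + 2)) 1 =>
      ind (poly (U 0) (V 0)) (mk y 0) x.1) (sph (m + 2)) := fun y =>
    (integrable_finsetSum _ fun a _ => integrable_finsetSum _ fun b _ =>
      (F_int _ _ _).const_mul _).congr (ae_j.mono fun x hx => (ind_poly (U 0) (V 0) y hx).symm)
  rw [← integral_sub (hi _) (hi _), ← mul_one (Measure.real _ _), ← smul_eq_mul, ← integral_const]
  refine integral_congr_ae ?_
  have hd : ∀ a b, ∀ᵐ x ∂(sph (m + 2)), d3 (pr x.1) (U 0 a) (V 0 b) ≠ 0 := fun a b =>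
    (indep 0 a b).elim fun _ => ae_d
  filter_upwards [ae_j, hd true true, hd true false, hd false true, hd false false,
    ae_d (w := ![1, 0, 0]) (u := Y 0) (v := U 0 true) (by simp [gA]),
    ae_d (w := ![1, 0, 0]) (u := Y 0) (v := U 0 false) (by simp [gC, hk.ne']),
    ae_d (w := ![1, 0, 0]) (u := V 0 true) (v := Y 0) (by simp [gB]),
    ae_d (w := ![0, 0, 1]) (u := V 0 false) (v := Y 0) (by simp [gD])] with x h0 h1 h2 h3 h4 kA kC kB kD
  have s1 := (F_sub h1 kB kA).1 a1
  have s2 := (F_sub h2 kD kA).2 a2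
  have s3 := (F_sub h3 kB kC).2 a3
  have s4 := (F_sub h4 kD kC).1 a4
  rw [ind_poly _ _ _ h0, ind_poly _ _ _ h0]
  simp only [Fintype.sum_bool, pm_t, pm_f]
  rw [gA, gB, gC, gD] at *
  have m1 := mul_pos_iff_of_pos_left (b := 16 / 5 * pr x.1 2 - 12 / 5 * pr x.1 0) hk
  have m2 : k 0 * (16 / 5 * pr x.1 2 - 12 / 5 * pr x.1 0) < 0 ↔
      16 / 5 * pr x.1 2 - 12 / 5 * pr x.1 0 < 0 := by
    rw [← neg_pos, ← mul_neg, mul_pos_iff_of_pos_left hk, neg_pos]
  have m3 := right_ne_zero_of_mul kC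
  simp only [m1] at s4
  simp only [m2] at s3
  grind

lemma c_mk {u : ℝ → R3} (hu : Continuous u) (s : Fin m → ℝ) : Continuous fun t => mk (u t) s := by
  refine (PiLp.continuous_toLp 2 _).comp (continuous_pi fun i => ?_)
  refine Fin.cases (by simp only [Fin.cons_zero]; fun_prop) (fun i => Fin.cases ?_ (fun i => ?_) i) i
  · simp only [Fin.cons_zero, Fin.cons_succ]; fun_prop
  · refine Fin.cases ?_ (fun i => ?_) i <;> simp only [Fin.cons_zero, Fin.cons_succ] <;> fun_prop

lemma cases3 {P : Fin (m + 2) → Prop} (h0 : P 0) (h1 : P (Fin.succ 0)) (h2 : ∀ j : Fin m, P j.succ.succ)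
    (i : Fin (m + 2)) : P i := Fin.cases h0 (fun i => Fin.cases h1 h2 i) i

lemma po0 (U V : Bool → R3) (b : Bool) : poly U V ((0 : Fin (m + 2)), b) = mk (U b) 0 := rfl
lemma po1 (U V : Bool → R3) (b : Bool) : poly U V ((Fin.succ 0 : Fin (m + 2)), b) = mk (V b) 0 := rfl
lemma po2 (U V : Bool → R3) (b : Bool) (j : Fin m) :
    poly U V (j.succ.succ, b) = mk 0 (Pi.single j (pm b)) := rfl

lemma norm1 (t : ℝ) (v : Fin (m + 2) × Bool) : ‖poly (U t) (V t) v‖ = 1 := by
  have h1 := cs t
  have h2 := k_sq t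
  rw [← sq_eq_sq₀ (norm_nonneg _) zero_le_one, ← real_inner_self_eq_norm_sq]
  obtain ⟨i, b⟩ := v
  induction i using cases3 with
  | h0 => rw [po0, inner_mk]; cases b <;> simp [U]; linear_combination h2 + 16 * k t ^ 2 * h1
  | h1 => rw [po1, inner_mk]; cases b <;> simp [V] <;> linarith
  | h2 j => rw [po2, inner_mk]; simp [Pi.single_apply, pm_sq]

lemma dotUV (t : ℝ) (a b : Bool) : U t a 0 * V t b 0 + U t a 1 * V t b 1 + U t a 2 * V t b 2 =
    if a && b then -4 / 5 else 0 := by
  cases a <;> cases b <;> simp [U, V] <;> ring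

lemma same (t : ℝ) : SameLen (poly (m := m) (U t) (V t)) (poly (U 0) (V 0)) := by
  rintro ⟨i, a⟩ ⟨j, b⟩ h
  simp only [InnerProductGeometry.angle, norm1]
  congr 2
  induction i using cases3 <;> induction j using cases3 <;>
    simp only [po0, po1, po2, inner_mk, dotUV, mul_comm (V _ _ _), Pi.zero_apply, mul_zero, zero_mul,
      ne_eq, not_true] at h ⊢

lemma nohinge (t : ℝ) : NoHinge (poly (m := m) (U t) (V t)) := by
  intro i W hW
  have gen : ∀ {w u v : R3} (r : Fin (m + 2 + 1)), d3 w u v ≠ 0 →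
      (∀ l, l ≠ r → (Fin.cons (mk w 0) (fam u v fun _ => 1) : Fin (m + 2 + 1) → E (m + 2)) l ∈ W) →
      m + 2 ≤ Module.finrank ℝ W := fun r h hm => by
    have := ((li_fam h (s := fun _ => 1) fun _ => one_ne_zero).comp _ (Fin.succAbove_right_injective (p := r)))
    have h2 : LinearIndependent ℝ fun l => (⟨_, hm _ (r.succAbove_ne l)⟩ : W) :=
      LinearIndependent.of_comp W.subtype this
    simpa using h2.fintype_card_le_finrank
  have hk := k_pos t
  have h1 := cs t
  have cs4 : ∀ {P : Fin (m + 2 + 1) → Prop}, P 0 → P i1 → P i2 → (∀ j, P (j3 j)) → ∀ l, P l :=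
    fun h0 h1 h2 h3 l => Fin.cases h0 (cases3 h1 h2 h3) l
  induction i using cases3 with
  | h0 =>
    refine gen (w := ![4 * si t, -4 * co t, 3 * si t]) (u := V t true) (v := V t false) 0
      (ne_of_gt ?_) (cs4 (by simp) (fun _ => hW (Fin.succ 0, true) (Fin.succ_ne_zero (0 : Fin (m + 1))))
        (fun _ => hW (Fin.succ 0, false) (Fin.succ_ne_zero (0 : Fin (m + 1))))
        fun j _ => hW (j.succ.succ, true) (Fin.succ_ne_zero j.succ))
    simp only [d3, V, Matrix.cons_val]
    nlinarith [sq_nonneg (si t)]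
  | h1 =>
    refine gen (w := ![co t, si t, 0]) (u := U t true) (v := U t false) 0
      (ne_of_gt ?_) (cs4 (by simp) (fun _ => hW (0, true) (Fin.succ_ne_zero _).symm)
        (fun _ => hW (0, false) (Fin.succ_ne_zero _).symm)
        fun j _ => hW (j.succ.succ, true) ((Fin.succ_injective _).ne (Fin.succ_ne_zero _)))
    simp only [d3, U, Matrix.cons_val]
    nlinarith
  | h2 j =>
    have n1 : (Fin.succ 0 : Fin (m + 2)) ≠ j.succ.succ := (Fin.succ_injective _).ne (Fin.succ_ne_zero _).symm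
    have n3 : ∀ l : Fin m, j3 l ≠ j3 j → l.succ.succ ≠ j.succ.succ := fun l h e => h (congrArg Fin.succ e)
    by_cases hs : si t = 0
    · refine gen (w := U t false) (u := U t true) (v := V t true) (j3 j) ?_
        (cs4 (fun _ => hW (0, false) (Fin.succ_ne_zero _).symm)
          (fun _ => hW (0, true) (Fin.succ_ne_zero _).symm) (fun _ => hW (Fin.succ 0, true) n1)
          fun l h => hW (l.succ.succ, true) (n3 l h))
      have : co t ≠ 0 := fun h => by simp [h, hs] at h1
      simp [d3, U, V, hk.ne', this]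
    · refine gen (w := V t false) (u := U t true) (v := V t true) (j3 j) ?_
        (cs4 (fun _ => hW (Fin.succ 0, false) n1)
          (fun _ => hW (0, true) (Fin.succ_ne_zero _).symm) (fun _ => hW (Fin.succ 0, true) n1)
          fun l h => hW (l.succ.succ, true) (n3 l h))
      simp [d3, U, V, hs]

theorem result (n : ℕ) (hn : 3 ≤ n) :
    ∃ γ : ℝ → (Fin n × Bool → E n), Continuous γ ∧ γ 1 = γ 0 ∧
      (∀ t, IsPoly (γ t) ∧ NoHinge (γ t) ∧ SameLen (γ t) (γ 0)) ∧
      (∃ t ∈ Icc (0 : ℝ) 1, ¬ ∃ g : E n ≃ₗᵢ[ℝ] E n, ∀ v, γ t v = g (γ 0 v)) ∧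
      ∃ L : ℝ → ℝ, ContinuousOn L (Icc 0 1) ∧
        (∀ t ∈ Icc (0 : ℝ) 1, ∃ y : E n, ‖y‖ = 1 ∧ (∀ ε, y ∉ cone (facet (γ t) ε)) ∧
          L t = vol (γ t) y) ∧
        L 1 - L 0 = (sph n).real univ ∧ L 1 ≠ L 0 := by
  obtain ⟨m, rfl⟩ : ∃ m, n = m + 2 := ⟨n - 2, by omega⟩
  refine ⟨fun t => poly (U t) (V t), continuous_pi ?_, by simp only [U1, V1],
    fun t => ⟨⟨norm1 t, fun ε => ?_⟩, nohinge t, same t⟩, ⟨1 / 2, by norm_num, ?_⟩,
    fun t => W m (Y t) t, fun t ht => ContinuousAt.continuousWithinAt ?_,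
    fun t ht => ⟨mk (Y t) 0, ?_, fun ε h => ?_, (vol_eq _ _).symm⟩, jump, ?_⟩
  · rintro ⟨i, b⟩
    induction i using cases3 with
    | h0 => exact c_mk (c_U b) _
    | h1 => exact c_mk (c_V b) _
    | h2 j => exact continuous_const
  · obtain ⟨w, hw⟩ := indep t (ε 0) (ε 1)
    rw [facet_poly]
    exact (li_fam hw fun j h => by simpa [h] using pm_sq (ε j.succ.succ)).comp _ (Fin.succ_injective _)
  · rintro ⟨g, hg⟩
    have := g.inner_map_map (poly (U 0) (V 0) (0, true)) (poly (U 0) (V 0) (0, false))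
    rw [← hg, ← hg] at this
    simp only [po0, inner_mk, U, Matrix.cons_val, at0] at this
    have h1 : si (1 / 2) = 4 / 5 := by
      simp only [si, p, q, mul_one_div, sin_pi_div_two, cos_pi_div_two]; norm_num
    rw [h1] at this
    linarith [k_pos 0, k_pos (1 / 2)]
  · refine tendsto_finsetSum _ fun a _ => tendsto_finsetSum _ fun b _ => ?_
    obtain ⟨w, hw⟩ := indep t a b
    exact (F_cont c_Y (c_U a) (c_V b) hw (notin ht a b)).const_mul _
  · rw [← sq_eq_sq₀ (norm_nonneg _) zero_le_one, ← real_inner_self_eq_norm_sq, inner_mk]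
    simpa [Y, sq] using pq t
  · rw [facet_poly, mem_cone fun _ => pm_sq _, pr_mk] at h
    exact notin ht _ _ h.1
  · rw [← sub_ne_zero, jump]
    exact (measureReal_ne_zero_iff (measure_ne_top _ _)).2
      (mt Measure.measure_univ_eq_zero.1 (Measure.toSphere_ne_zero _))

end Pool.Agent.Results.MP_cf0a62_gt.Crank
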